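import Mathlib
import Pool.Prelude.Def_F_d9c4f0db

/-!
Affine copies of `{0, 1, 3}` in a set of `n` integers: `2 M(n) ≤ (n - 1)²` for every `n ≥ 1`, so
`γ ≤ 1/2`.

Idea: in a solution `2 x + z = 3 y` the point `y` lies strictly between `x` and `z`, so for a fixed
`y` each of the two possible orders has at most `min(#A below y, #A above y)` solutions.
-/

open Filter

namespace Pool.Agent.Results.MP_b15886_co.HalfBound

/-- `T(A)`: the number of pairs `(x, y)` in `A × A`, `x ≠ y`, with `x + 3 (y - x) ∈ A`. -/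
def T (A : Finset ℤ) : ℕ :=
  ((A ×ˢ A).filter (fun (x, y) ↦ x ≠ y ∧ x + 3 * (y - x) ∈ A)).card

lemma fiber_bound (A : Finset ℤ) (y : ℤ) :
    (A.filter fun x => x ≠ y ∧ x + 3 * (y - x) ∈ A).card ≤
      2 * min (A.filter fun x => x < y).card (A.filter fun x => y < x).card := by
  have h1 : (A.filter fun x => x ≠ y ∧ x + 3 * (y - x) ∈ A) =
      (A.filter fun x => x < y ∧ x + 3 * (y - x) ∈ A) ∪
      (A.filter fun x => y < x ∧ x + 3 * (y - x) ∈ A) := by
    ext x
    simp only [Finset.mem_filter, Finset.mem_union]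
    constructor
    · rintro ⟨h, h2, h3⟩
      rcases lt_or_gt_of_ne h2 with h4 | h4
      · exact Or.inl ⟨h, h4, h3⟩
      · exact Or.inr ⟨h, h4, h3⟩
    · rintro (⟨h, h2, h3⟩ | ⟨h, h2, h3⟩)
      · exact ⟨h, h2.ne, h3⟩
      · exact ⟨h, h2.ne', h3⟩
  have hinj : ∀ s : Set ℤ, Set.InjOn (fun x : ℤ => x + 3 * (y - x)) s := by
    intro s a _ b _ h
    simp only at h
    linarith
  have a1 : (A.filter fun x => x < y ∧ x + 3 * (y - x) ∈ A).card ≤
      (A.filter fun x => x < y).card := by
    apply Finset.card_le_card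
    intro x hx
    simp only [Finset.mem_filter] at hx ⊢
    exact ⟨hx.1, hx.2.1⟩
  have a2 : (A.filter fun x => x < y ∧ x + 3 * (y - x) ∈ A).card ≤
      (A.filter fun x => y < x).card := by
    apply Finset.card_le_card_of_injOn (fun x : ℤ => x + 3 * (y - x)) _ (hinj _)
    intro x hx
    simp only [Finset.coe_filter, Set.mem_ofPred_eq] at hx ⊢
    exact ⟨hx.2.2, by linarith [hx.2.1]⟩
  have b1 : (A.filter fun x => y < x ∧ x + 3 * (y - x) ∈ A).card ≤
      (A.filter fun x => y < x).card := by
    apply Finset.card_le_card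
    intro x hx
    simp only [Finset.mem_filter] at hx ⊢
    exact ⟨hx.1, hx.2.1⟩
  have b2 : (A.filter fun x => y < x ∧ x + 3 * (y - x) ∈ A).card ≤
      (A.filter fun x => x < y).card := by
    apply Finset.card_le_card_of_injOn (fun x : ℤ => x + 3 * (y - x)) _ (hinj _)
    intro x hx
    simp only [Finset.coe_filter, Set.mem_ofPred_eq] at hx ⊢
    exact ⟨hx.2.2, by linarith [hx.2.1]⟩
  rw [h1]
  refine (Finset.card_union_le _ _).trans ?_
  have := le_min a1 a2
  have := le_min b2 b1
  omega

lemma T_eq_sum (A : Finset ℤ) :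
    T A = ∑ y ∈ A, (A.filter fun x => x ≠ y ∧ x + 3 * (y - x) ∈ A).card := by
  unfold T
  rw [Finset.card_filter, Finset.sum_product_right]
  apply Finset.sum_congr rfl
  intro y _
  rw [Finset.card_filter]

lemma range_sum_bound : ∀ n : ℕ, 4 * ∑ j ∈ Finset.range n, min j (n - 1 - j) ≤ (n - 1) ^ 2 := by
  intro n
  induction n using Nat.strong_induction_on with
  | _ n ih =>
    match n, ih with
    | 0, _ => simp
    | 1, _ => simp
    | m + 2, ih =>
      have h := ih m (by omega)
      rw [Finset.sum_range_succ, Finset.sum_range_succ']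
      have h2 : ∀ j ∈ Finset.range m, min (j + 1) (m + 2 - 1 - (j + 1)) ≤
          1 + min j (m - 1 - j) := by
        intro j hj
        rw [Finset.mem_range] at hj
        omega
      have h3 := Finset.sum_le_sum h2
      rw [Finset.sum_add_distrib, Finset.sum_const, Finset.card_range, smul_eq_mul, mul_one] at h3
      have h4 : min (m + 1) (m + 2 - 1 - (m + 1)) = 0 := by omega
      have h5 : min 0 (m + 2 - 1 - 0) = 0 := by omega
      rw [h4, h5]
      have h6 : m + 2 - 1 = m + 1 := by omega
      rw [h6]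
      rcases m with _ | m
      · simp
      · have h7 : m + 1 - 1 = m := by omega
        rw [h7] at h h3
        rw [h6] at h3
        nlinarith

lemma sum_min_bound (A : Finset ℤ) :
    4 * ∑ y ∈ A, min (A.filter fun x => x < y).card (A.filter fun x => y < x).card ≤
      (A.card - 1) ^ 2 := by
  set L : ℤ → ℕ := fun y => (A.filter fun x => x < y).card with hL
  have hR : ∀ y ∈ A, (A.filter fun x => y < x).card = A.card - 1 - L y := by
    intro y hy
    have h1 : (A.filter fun x => x < y).card + (A.filter fun x => ¬ x < y).card = A.card :=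
      Finset.card_filter_add_card_filter_not _
    have h2 : (A.filter fun x => ¬ x < y) = insert y (A.filter fun x => y < x) := by
      ext x
      simp only [Finset.mem_filter, Finset.mem_insert, not_lt]
      constructor
      · rintro ⟨h, h3⟩
        rcases h3.eq_or_lt with h4 | h4
        · exact Or.inl h4.symm
        · exact Or.inr ⟨h, h4⟩
      · rintro (h | ⟨h, h3⟩)
        · exact ⟨h ▸ hy, h.ge⟩
        · exact ⟨h, h3.le⟩
    rw [h2, Finset.card_insert_of_notMem (by simp)] at h1
    simp only [hL]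
    omega
  have hmono : ∀ a ∈ A, ∀ b, a < b → L a < L b := by
    intro a ha b hab
    apply Finset.card_lt_card
    refine ⟨fun x hx => ?_, fun h => ?_⟩
    · simp only [Finset.mem_filter] at hx ⊢
      exact ⟨hx.1, hx.2.trans hab⟩
    · have := h (Finset.mem_filter.mpr ⟨ha, hab⟩)
      simp at this
  have hinj : Set.InjOn L A := by
    intro a ha b hb h
    rcases lt_trichotomy a b with h1 | h1 | h1
    · exact absurd h (hmono a ha b h1).ne
    · exact h1
    · exact absurd h (hmono b hb a h1).ne'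
  have himg : A.image L = Finset.range A.card := by
    apply Finset.eq_of_subset_of_card_le
    · intro k hk
      obtain ⟨y, hy, rfl⟩ := Finset.mem_image.mp hk
      rw [Finset.mem_range]
      apply Finset.card_lt_card
      refine ⟨Finset.filter_subset _ _, fun h => ?_⟩
      have := h hy
      simp at this
    · rw [Finset.card_range, Finset.card_image_of_injOn hinj]
  have h1 : ∑ y ∈ A, min (A.filter fun x => x < y).card (A.filter fun x => y < x).card =
      ∑ j ∈ Finset.range A.card, min j (A.card - 1 - j) := by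
    rw [← himg, Finset.sum_image hinj]
    apply Finset.sum_congr rfl
    intro y hy
    rw [hR y hy]
  rw [h1]
  exact range_sum_bound _

/-- `2 T(A) ≤ (|A| - 1)²` for every finite set `A` of integers. -/
lemma T_bound (A : Finset ℤ) : 2 * T A ≤ (A.card - 1) ^ 2 := by
  rw [T_eq_sum]
  have h1 := Finset.sum_le_sum (fun y (_ : y ∈ A) => fiber_bound A y)
  rw [← Finset.mul_sum] at h1
  have h2 := sum_min_bound A
  omega

lemma M_bound (n : ℕ) : 2 * Ne16c1d3e.max013AffineTranslates n ≤ (n - 1) ^ 2 := by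
  unfold Ne16c1d3e.max013AffineTranslates
  have hne : {k | ∃ A : Finset ℤ, A.card = n ∧
      k = ((A ×ˢ A).filter (fun (x, y) ↦ x ≠ y ∧ x + 3 * (y - x) ∈ A)).card}.Nonempty := by
    obtain ⟨A, hA⟩ := Infinite.exists_subset_card_eq ℤ n
    exact ⟨_, A, hA, rfl⟩
  have hbd : ∀ k ∈ {k | ∃ A : Finset ℤ, A.card = n ∧
      k = ((A ×ˢ A).filter (fun (x, y) ↦ x ≠ y ∧ x + 3 * (y - x) ∈ A)).card},
      k ≤ (n - 1) ^ 2 / 2 := by
    rintro k ⟨A, hA, rfl⟩
    have := T_bound A
    rw [hA] at this
    unfold T at this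
    omega
  have := csSup_le hne hbd
  exact (Nat.mul_le_mul_left 2 this).trans (Nat.mul_div_le _ _)

/-- **Theorem.** For every `n ≥ 1` one has `M(n) ≤ (n - 1)² / 2`, and hence `γ ≤ 1/2`. -/
theorem result :
    (∀ n : ℕ, 1 ≤ n → (Ne16c1d3e.max013AffineTranslates n : ℝ) ≤ ((n : ℝ) - 1) ^ 2 / 2) ∧
      Ne16c1d3e.Ne9f539be.gamma ≤ 1 / 2 := by
  have key : ∀ n : ℕ, 1 ≤ n →
      (Ne16c1d3e.max013AffineTranslates n : ℝ) ≤ ((n : ℝ) - 1) ^ 2 / 2 := by
    intro n hn
    have h := M_bound n
    have h2 : (2 * Ne16c1d3e.max013AffineTranslates n : ℝ) ≤ ((n - 1 : ℕ) : ℝ) ^ 2 := by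
      exact_mod_cast h
    rw [Nat.cast_sub hn, Nat.cast_one] at h2
    linarith
  refine ⟨key, ?_⟩
  unfold Ne16c1d3e.Ne9f539be.gamma
  apply limsup_le_of_le
  · refine ⟨0, ?_⟩
    intro b hb
    rw [eventually_map, eventually_atTop] at hb
    obtain ⟨N, hN⟩ := hb
    exact le_trans (by positivity) (hN N le_rfl)
  · filter_upwards [eventually_ge_atTop 1] with n hn
    have h1 : (1 : ℝ) ≤ n := by exact_mod_cast hn
    rw [div_le_iff₀ (by positivity)]
    have := key n hn
    nlinarith

end Pool.Agent.Results.MP_b15886_co.HalfBound
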